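import Mathlib
import Pool.Agent.X28.SX.StepG
import Pool.Agent.X28.SX.StepI

/-!
# Primes among the numbers `p_q - q + t`, for almost all shifts `t`

For every dense set `Q` of integers, for instance of primes, and almost all vectors of shifts `t_1, …, t_r`, all the numbers
`p_q - q + t_i` are prime for at least `1 - ε` times the number of `q ∈ Q` which is expected from the divisibility by the
small primes.
-/

set_option autoImplicit false

namespace Pool.Agent.Results.MP_61a569_nt.ShiftedDifferences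

open Finset Filter

/-- the `k`-th prime, `p 1 = 2` -/
noncomputable def p (k : ℕ) : ℕ := Nat.nth Nat.Prime (k - 1)

/-- the product of `1 - 1/q` over the primes `q ≤ y` -/
noncomputable def V (y : ℕ) : ℝ := ∏ q ∈ (Icc 1 y).filter Nat.Prime, (1 - 1 / (q : ℝ))

open Classical in
/-- the `q ∈ Q` for which no number `p_q - q + t i`, `i < r`, has a prime factor `≤ y` -/
noncomputable def Free (y : ℕ) (Q : Finset ℕ) {r : ℕ} (t : Fin r → ℕ) : Finset ℕ :=
  Q.filter (fun q => ∀ i, ∀ l : ℕ, l.Prime → l ≤ y → ¬ l ∣ p q - q + t i)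

open Classical in
/-- the `q ∈ Q` for which all the numbers `p_q - q + t i`, `i < r`, are prime -/
noncomputable def Good (Q : Finset ℕ) {r : ℕ} (t : Fin r → ℕ) : Finset ℕ :=
  Q.filter (fun q => ∀ i, (p q - q + t i).Prime)

/-- the shifts: the vectors `t` with `M (g₀ i + 1) ≤ t i < M (g₀ i + G i + 1)` for all `i < r` -/
def Shifts (M : ℕ) {r : ℕ} (g₀ G : Fin r → ℕ) : Finset (Fin r → ℕ) :=
  Fintype.piFinset (fun i => Ico (M * (g₀ i + 1)) (M * (g₀ i + 1 + G i)))

theorem V_pos (y : ℕ) : 0 < V y := Pool.Agent.H373R2.T7.Vz_pos y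

/-- a shift is a residue modulo `M` and a multiple of `M` -/
theorem split {r : ℕ} {M : ℕ} (hM : 0 < M) (g₀ G t : Fin r → ℕ) (ht : t ∈ Shifts M g₀ G) :
    (fun i => t i % M) ∈ Fintype.piFinset (fun _ : Fin r => range M) ∧
    (fun i => t i / M - g₀ i) ∈ Fintype.piFinset (fun i : Fin r => Icc 1 (G i)) ∧
    ∀ i, t i = t i % M + M * (g₀ i + (t i / M - g₀ i)) := by
  unfold Shifts at ht
  rw [Fintype.mem_piFinset] at ht
  have h0 : ∀ i, g₀ i + 1 ≤ t i / M ∧ t i / M < g₀ i + 1 + G i := by
    intro i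
    have h := mem_Ico.1 (ht i)
    constructor
    · rw [Nat.le_div_iff_mul_le hM, mul_comm]
      exact h.1
    · rw [Nat.div_lt_iff_lt_mul hM, mul_comm]
      exact h.2
  refine ⟨?_, ?_, ?_⟩
  · rw [Fintype.mem_piFinset]
    intro i
    rw [mem_range]
    exact Nat.mod_lt _ hM
  · rw [Fintype.mem_piFinset]
    intro i
    have h := h0 i
    rw [mem_Icc]
    omega
  · intro i
    have h := h0 i
    have h2 : g₀ i + (t i / M - g₀ i) = t i / M := by omega
    rw [h2]
    exact (Nat.mod_add_div (t i) M).symm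

theorem free_mod (y : ℕ) (Q : Finset ℕ) {r : ℕ} (t s : Fin r → ℕ)
    (h : ∀ i, t i % primorial y = s i % primorial y) : Free y Q t = Free y Q s := by
  classical
  unfold Free
  apply filter_congr
  intro q _
  have key : ∀ i, ∀ l : ℕ, l.Prime → l ≤ y → (l ∣ p q - q + t i ↔ l ∣ p q - q + s i) := by
    intro i l hl hly
    have h1 : t i % l = s i % l := by
      have h2 : l ∣ primorial y := hl.dvd_primorial_iff.2 hly
      rw [← Nat.mod_mod_of_dvd (t i) h2, ← Nat.mod_mod_of_dvd (s i) h2, h i]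
    rw [Nat.dvd_iff_mod_eq_zero, Nat.dvd_iff_mod_eq_zero, Nat.add_mod, h1, ← Nat.add_mod]
  constructor
  · intro h2 i l hl hly hd
    exact h2 i l hl hly ((key i l hl hly).2 hd)
  · intro h2 i l hl hly hd
    exact h2 i l hl hly ((key i l hl hly).1 hd)

theorem p_step {q : ℕ} (hq : 2 ≤ q) : p q + 2 ≤ p (q + 1) := by
  unfold p
  rw [Nat.add_sub_cancel]
  have h1 : Nat.nth Nat.Prime (q - 1) < Nat.nth Nat.Prime q :=
    Nat.nth_strictMono Nat.infinite_setOfPred_prime (by omega)
  have h2 : (Nat.nth Nat.Prime (q - 1)).Prime := Nat.prime_nth_prime _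
  have h3 : (Nat.nth Nat.Prime q).Prime := Nat.prime_nth_prime _
  have h4 := Nat.add_two_le_nth_prime (q - 1)
  have h5 := h2.eq_two_or_odd
  have h6 := h3.eq_two_or_odd
  omega

theorem diff_lt {a b : ℕ} (ha : 2 ≤ a) (hab : a < b) : p a - a < p b - b := by
  have hp : ∀ k : ℕ, 1 ≤ k → k < p k := fun k hk => by
    have h := Nat.add_two_le_nth_prime (k - 1)
    unfold p
    omega
  induction b with
  | zero => omega
  | succ b ih =>
    have h1 := p_step (q := b) (by omega)
    have h2 := hp b (by omega)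
    rcases Nat.lt_succ_iff_lt_or_eq.1 hab with h | h
    · have := ih h
      omega
    · subst h
      omega

open Classical in
/-- the vectors of one class -/
theorem one_class (r A C : ℕ) (ε : ℝ) (hε : 0 < ε) (hε1 : ε ≤ 1) : ∃ K₀ : ℕ, ∀ K₁ : ℕ, ∃ n₀ : ℕ, ∀ n : ℕ, n₀ ≤ n →
    ∀ y : ℕ, K₀ * Real.log (Real.log n) ≤ y → y ≤ K₁ * Real.log (Real.log n) →
    ∀ g₀ G : Fin r → ℕ, (∀ i, primorial y * (g₀ i + G i) ≤ n) → (∀ i, (n : ℝ) ≤ primorial y * G i * Real.log n ^ C) →
    ∀ Q : Finset ℕ, (∀ q ∈ Q, 2 ≤ q ∧ q ≤ n) → ∀ c : Fin r → ℕ, (∀ i, c i < primorial y) →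
    (n : ℝ) ≤ (Free y Q c).card * Real.log n ^ A →
    (((Fintype.piFinset (fun i => Icc 1 (G i))).filter (fun g : Fin r → ℕ =>
      ((Good Q (fun i => c i + primorial y * (g₀ i + g i))).card : ℝ) <
        (1 - ε) * ((Free y Q c).card / (V y * Real.log n) ^ r))).card : ℝ) ≤ ε * ∏ i, (G i : ℝ) := by
  obtain ⟨K₀, hK₀⟩ := Pool.Agent.X28.SX.stepGL r (fun _ => 1) (fun _ => Or.inl rfl) A 3 C ε hε hε1
  refine ⟨K₀, fun K₁ => ?_⟩
  obtain ⟨n1, hn1⟩ := hK₀ K₁
  obtain ⟨n2, hn2⟩ := Pool.Agent.X28.SX.nth_le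
  obtain ⟨n3, hn3⟩ := Pool.Agent.H373R2.T7.ev_L' 2
  refine ⟨max n1 (max n2 (max n3 1)), fun n hn y hy1 hy2 g₀ G hw hG Q hQ c hc hF => ?_⟩
  have b1 : n1 ≤ n := le_trans (le_max_left _ _) hn
  have b2 : n2 ≤ n := le_trans (le_trans (le_max_left _ _) (le_max_right _ _)) hn
  have b3 : n3 ≤ n := le_trans (le_trans (le_trans (le_max_left _ _) (le_max_right _ _)) (le_max_right _ _)) hn
  have b4 : 1 ≤ n := le_trans (le_trans (le_trans (le_max_right _ _) (le_max_right _ _)) (le_max_right _ _)) hn
  have hL2 := hn3 n b3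
  have hn0 : (1 : ℝ) ≤ n := by exact_mod_cast b4
  have hpk : ∀ k : ℕ, 1 ≤ k → k < p k := fun k hk => by
    have h := Nat.add_two_le_nth_prime (k - 1)
    unfold p
    omega
  have hGi : ∀ i, 1 ≤ G i := by
    intro i
    by_contra h
    have h1 : G i = 0 := by omega
    have h2 := hG i
    rw [h1] at h2
    simp at h2
    linarith
  have hMn : ∀ i : Fin r, primorial y ≤ n := by
    intro i
    refine le_trans ?_ (hw i)
    exact Nat.le_mul_of_pos_right _ (by have := hGi i; omega)
  have hsub : Free y Q c ⊆ Q := filter_subset _ _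
  have key := hn1 n b1 y hy1 hy2 (Free y Q c) hF (fun i q => p q - q + c i) (by
      intro i a ha b hb hab
      have ha' := hQ a (hsub (mem_coe.1 ha))
      have hb' := hQ b (hsub (mem_coe.1 hb))
      have hab' : p a - a = p b - b := Nat.add_right_cancel hab
      rcases lt_trichotomy a b with h | h | h
      · have := diff_lt ha'.1 h
        omega
      · exact h
      · have := diff_lt hb'.1 h
        omega) (by
      intro i q hq
      have hq' := hQ q (hsub hq)
      have hq2 := (mem_filter.1 hq).2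
      have h1 := hpk q (by omega)
      refine ⟨by omega, hq2 i, ?_⟩
      have h2 := hn2 n b2 q (by omega)
      have h3 : p q - q + c i ≤ p q + n := by
        have := hc i
        have := hMn i
        omega
      have h4 : ((p q - q + c i : ℕ) : ℝ) ≤ p q + n := by exact_mod_cast h3
      refine h4.trans ?_
      have h5 : (p q : ℝ) ≤ n * Real.log n ^ 2 := h2
      have h6 : (n : ℝ) * Real.log n ^ 3 = n * Real.log n ^ 2 * Real.log n := by ring
      have h7 : (n : ℝ) ≤ n * Real.log n ^ 2 := le_mul_of_one_le_right (by linarith) (one_le_pow₀ (by linarith))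
      have h8 : (n : ℝ) * Real.log n ^ 2 * 2 ≤ n * Real.log n ^ 2 * Real.log n :=
        mul_le_mul_of_nonneg_left hL2 (by positivity)
      rw [h6]
      linarith) g₀ G (fun i => by rw [pow_one]; exact hw i) (fun i => by rw [pow_one]; exact hG i)
  have hVz : Pool.Agent.H373R2.T7.Vz y = V y := rfl
  have e1 : V y * (((1 : ℕ) : ℝ) * Real.log n) = V y * Real.log n := by push_cast; ring
  simp only [prod_const, card_univ, Fintype.card_fin, hVz, e1] at key
  refine le_trans ?_ key
  rw [Nat.cast_le]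
  apply card_le_card
  intro g hg
  rw [mem_filter] at hg ⊢
  refine ⟨hg.1, lt_of_le_of_lt ?_ hg.2⟩
  rw [Nat.cast_le]
  apply card_le_card
  intro q hq
  rw [mem_filter] at hq
  unfold Good
  rw [mem_filter]
  refine ⟨hsub hq.1, fun i => ?_⟩
  have h1 := hq.2 i
  rw [pow_one, add_assoc] at h1
  exact h1

theorem cop_iff (y v : ℕ) : (∀ l : ℕ, l.Prime → l ≤ y → ¬ l ∣ v) ↔ Nat.Coprime (primorial y) v := by
  constructor
  · intro h
    apply Nat.coprime_of_dvd
    intro k hk hk1 hk2
    exact h k hk (hk.dvd_primorial_iff.1 hk1) hk2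
  · intro h l hl hly hlv
    have h1 : l ∣ primorial y := hl.dvd_primorial_iff.2 hly
    have h2 := Nat.dvd_gcd h1 hlv
    rw [h] at h2
    exact hl.one_lt.ne' (Nat.dvd_one.1 h2)

theorem block (M k v G : ℕ) :
    ((Ico (M * k) (M * (k + G))).filter (fun t => Nat.Coprime M (v + t))).card = G * Nat.totient M := by
  induction G with
  | zero => simp
  | succ G ih =>
    have h1 : Ico (M * k) (M * (k + (G + 1))) = Ico (M * k) (M * (k + G)) ∪ Ico (M * (k + G)) (M * (k + G) + M) := by
      rw [Finset.Ico_union_Ico_eq_Ico (Nat.mul_le_mul_left M (by omega)) (Nat.le_add_right _ _)]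
      congr 1
    rw [h1, filter_union, card_union_of_disjoint, ih]
    · have h2 : ((Ico (M * (k + G)) (M * (k + G) + M)).filter (fun t => Nat.Coprime M (v + t))).card = Nat.totient M := by
        rw [← Nat.filter_coprime_Ico_eq_totient M (v + M * (k + G))]
        apply card_bij (fun t _ => v + t)
        · intro t ht
          rw [mem_filter, mem_Ico] at ht ⊢
          exact ⟨⟨by omega, by omega⟩, ht.2⟩
        · intro a _ b _ h
          omega
        · intro b hb
          rw [mem_filter, mem_Ico] at hb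
          refine ⟨b - v, ?_, by omega⟩
          rw [mem_filter, mem_Ico]
          have h3 : v + (b - v) = b := by omega
          rw [h3]
          exact ⟨⟨by omega, by omega⟩, hb.2⟩
      rw [h2]
      ring
    · apply disjoint_filter_filter
      rw [disjoint_left]
      intro a ha hb
      rw [mem_Ico] at ha hb
      omega

/-- the mean of the number of the elements of `Free` -/
theorem mean (y r : ℕ) (g₀ G : Fin r → ℕ) (Q : Finset ℕ) :
    ∑ t ∈ Shifts (primorial y) g₀ G, (Free y Q t).card = Q.card * ∏ i, (G i * Nat.totient (primorial y)) := by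
  classical
  unfold Free
  simp only [card_filter]
  rw [sum_comm]
  have h1 : ∀ q ∈ Q, (∑ t ∈ Shifts (primorial y) g₀ G,
      if (∀ i, ∀ l : ℕ, l.Prime → l ≤ y → ¬ l ∣ p q - q + t i) then 1 else 0) =
      ∏ i, (G i * Nat.totient (primorial y)) := by
    intro q _
    rw [← card_filter]
    have h2 : (Shifts (primorial y) g₀ G).filter (fun t => ∀ i, ∀ l : ℕ, l.Prime → l ≤ y → ¬ l ∣ p q - q + t i) =
        Fintype.piFinset (fun i => (Ico (primorial y * (g₀ i + 1)) (primorial y * (g₀ i + 1 + G i))).filter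
          (fun t => Nat.Coprime (primorial y) ((p q - q) + t))) := by
      ext t
      unfold Shifts
      rw [mem_filter, Fintype.mem_piFinset, Fintype.mem_piFinset]
      simp only [cop_iff, mem_filter]
      exact forall_and.symm
    rw [h2, Fintype.card_piFinset]
    apply prod_congr rfl
    intro i _
    exact block _ _ _ _
  rw [sum_congr rfl h1, sum_const, smul_eq_mul]

open Classical in
/-- For all `r`, `A`, `C` and `0 < ε ≤ 1` there is `K₀` such that for every `K₁` and every large `n`, every `y` between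
`K₀ log log n` and `K₁ log log n`, with `M` the product of the primes `≤ y`, and all windows with
`M (g₀ i + G i) ≤ n`, `G i ≥ n / (M log ^ C n)`, `i < r`, and every set `Q` of integers `q`, `2 ≤ q ≤ n`, for instance all
the primes `≤ n`:
(1) among the `∏ (M G i)` vectors of shifts `t`, `M (g₀ i + 1) ≤ t i < M (g₀ i + G i + 1)`, for which at least
`n / log ^ A n` of the `q ∈ Q` are such that none of the numbers `p_q - q + t i` has a prime factor `≤ y`, all the numbers
`p_q - q + t i` are prime for at least `1 - ε` times the expected number `#(Free y Q t) / (V y log n) ^ r` of `q ∈ Q`, with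
at most `ε ∏ (M G i)` exceptions;
(2) in the mean over all these `t` the number of the elements of `Free y Q t` is exactly
`#Q ∏ (φ(M) G i) / ∏ (M G i)`. -/
theorem result : ∀ (r A C : ℕ) (ε : ℝ), 0 < ε → ε ≤ 1 → ∃ K₀ : ℕ, ∀ K₁ : ℕ, ∃ n₀ : ℕ, ∀ n : ℕ, n₀ ≤ n →
    ∀ y : ℕ, K₀ * Real.log (Real.log n) ≤ y → y ≤ K₁ * Real.log (Real.log n) →
    ∀ g₀ G : Fin r → ℕ, (∀ i, primorial y * (g₀ i + G i) ≤ n) → (∀ i, (n : ℝ) ≤ primorial y * G i * Real.log n ^ C) →
    ∀ Q : Finset ℕ, (∀ q ∈ Q, 2 ≤ q ∧ q ≤ n) →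
    (((Shifts (primorial y) g₀ G).filter (fun t => (n : ℝ) ≤ (Free y Q t).card * Real.log n ^ A ∧
      ((Good Q t).card : ℝ) < (1 - ε) * ((Free y Q t).card / (V y * Real.log n) ^ r))).card : ℝ) ≤
        ε * ∏ i, ((primorial y : ℝ) * G i) ∧
    ∑ t ∈ Shifts (primorial y) g₀ G, (Free y Q t).card = Q.card * ∏ i, (G i * Nat.totient (primorial y)) := by
  intro r A C ε hε hε1
  obtain ⟨K₀, hK₀⟩ := one_class r A C ε hε hε1
  refine ⟨K₀, fun K₁ => ?_⟩
  obtain ⟨n1, hn1⟩ := hK₀ K₁
  refine ⟨n1, fun n hn y hy1 hy2 g₀ G hw hG Q hQ => ⟨?_, mean y r g₀ G Q⟩⟩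
  obtain ⟨M, hM⟩ : ∃ M : ℕ, M = primorial y := ⟨_, rfl⟩
  have hM0 : 0 < M := by rw [hM]; exact primorial_pos y
  have key := hn1 n hn y hy1 hy2 g₀ G hw hG Q hQ
  rw [← hM] at key ⊢
  -- the bad vectors of a class
  obtain ⟨B, hB⟩ : ∃ B : (Fin r → ℕ) → Finset (Fin r → ℕ), ∀ c, B c =
      (Fintype.piFinset (fun i => Icc 1 (G i))).filter (fun g : Fin r → ℕ =>
        (n : ℝ) ≤ (Free y Q c).card * Real.log n ^ A ∧
        ((Good Q (fun i => c i + M * (g₀ i + g i))).card : ℝ) <
        (1 - ε) * ((Free y Q c).card / (V y * Real.log n) ^ r)) := ⟨_, fun _ => rfl⟩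
  have hP0 : 0 ≤ ∏ i, (G i : ℝ) := prod_nonneg fun i _ => Nat.cast_nonneg _
  have hBc : ∀ c ∈ Fintype.piFinset (fun _ : Fin r => range M), ((B c).card : ℝ) ≤ ε * ∏ i, (G i : ℝ) := by
    intro c hc
    rw [Fintype.mem_piFinset] at hc
    by_cases h : (n : ℝ) ≤ (Free y Q c).card * Real.log n ^ A
    · refine le_trans ?_ (key c (fun i => mem_range.1 (hc i)) h)
      rw [Nat.cast_le, hB]
      apply card_le_card
      intro g hg
      rw [mem_filter] at hg ⊢
      exact ⟨hg.1, hg.2.2⟩
    · have h1 : B c = ∅ := by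
        rw [hB]
        apply filter_false_of_mem
        intro g _ hg
        exact h hg.1
      rw [h1, card_empty, Nat.cast_zero]
      positivity
  have h1 : ((Shifts M g₀ G).filter (fun t => (n : ℝ) ≤ (Free y Q t).card * Real.log n ^ A ∧
      ((Good Q t).card : ℝ) < (1 - ε) * ((Free y Q t).card / (V y * Real.log n) ^ r))).card ≤
      ((Fintype.piFinset (fun _ : Fin r => range M)).sigma (fun c => B c)).card := by
    apply card_le_card_of_injOn (fun t => (⟨fun i => t i % M, fun i => t i / M - g₀ i⟩ : Σ _ : Fin r → ℕ, Fin r → ℕ))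
    · intro t ht
      rw [mem_coe, mem_filter] at ht
      obtain ⟨s1, s2, s3⟩ := split hM0 g₀ G t ht.1
      rw [mem_coe, mem_sigma]
      refine ⟨s1, ?_⟩
      rw [hB, mem_filter]
      have e1 : Free y Q (fun i => t i % M) = Free y Q t := by
        apply free_mod
        intro i
        rw [← hM]
        exact Nat.mod_mod _ _
      have e2 : (fun i => t i % M + M * (g₀ i + (t i / M - g₀ i))) = t := by
        funext i
        exact (s3 i).symm
      refine ⟨s2, ?_, ?_⟩
      · show (n : ℝ) ≤ (Free y Q (fun i => t i % M)).card * Real.log n ^ A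
        rw [e1]
        exact ht.2.1
      · show ((Good Q (fun i => t i % M + M * (g₀ i + (t i / M - g₀ i)))).card : ℝ) <
          (1 - ε) * ((Free y Q (fun i => t i % M)).card / (V y * Real.log n) ^ r)
        rw [e1, e2]
        exact ht.2.2
    · intro t ht s hs hts
      rw [mem_coe, mem_filter] at ht hs
      obtain ⟨-, -, t3⟩ := split hM0 g₀ G t ht.1
      obtain ⟨-, -, s3⟩ := split hM0 g₀ G s hs.1
      have h2 : (fun i => t i % M) = fun i => s i % M := congrArg Sigma.fst hts
      have h3 : (fun i => t i / M - g₀ i) = fun i => s i / M - g₀ i := by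
        have := congrArg Sigma.snd hts
        exact this
      funext i
      have h4 : t i % M = s i % M := congrFun h2 i
      have h5 : t i / M - g₀ i = s i / M - g₀ i := congrFun h3 i
      rw [t3 i, s3 i, h4, h5]
  have h2 : (((Fintype.piFinset (fun _ : Fin r => range M)).sigma (fun c => B c)).card : ℝ) ≤
      ∑ c ∈ Fintype.piFinset (fun _ : Fin r => range M), ε * ∏ i, (G i : ℝ) := by
    rw [card_sigma]
    push_cast
    exact sum_le_sum hBc
  calc _ ≤ (((Fintype.piFinset (fun _ : Fin r => range M)).sigma (fun c => B c)).card : ℝ) := by exact_mod_cast h1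
    _ ≤ _ := h2
    _ = ε * ∏ i, ((M : ℝ) * G i) := by
        rw [sum_const, Fintype.card_piFinset, nsmul_eq_mul]
        simp only [card_range, prod_const, card_univ, Fintype.card_fin]
        rw [prod_mul_distrib, prod_const, card_univ, Fintype.card_fin]
        push_cast
        ring

end Pool.Agent.Results.MP_61a569_nt.ShiftedDifferences
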