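import Mathlib
import Pool.Agent.X28.SP.VecG
import Pool.Agent.X28.SX.StepI
import Pool.Agent.Results.MP_61a569_nt.ShiftedDifferences

/-!
# Primes among the numbers `p_q - q + t`, for shifts up to `exp (n ^ (1 / r))` and arbitrary finite sets of `q ≤ n`

The number of elements `q` that is needed is, up to a constant, as small as it can possibly be.
-/

set_option autoImplicit false

open Finset

namespace Pool.Agent.Results.MP_61a569_nt.ExponentialShiftRanges

/-- the `k`-th prime, `p 1 = 2` -/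
noncomputable def p (k : ℕ) : ℕ := Nat.nth Nat.Prime (k - 1)

/-- the vectors `(h_1, ..., h_r)` with entries in `[1, X]` -/
def Box (r X : ℕ) : Finset (Fin r → ℕ) := Fintype.piFinset fun _ => Icc 1 X

/-- the `q ∈ Q` for which all the numbers `p_q - q + h_j` are prime -/
noncomputable def Good (Q : Finset ℕ) {r : ℕ} (h : Fin r → ℕ) : Finset ℕ :=
  Q.filter (fun q => ∀ j, (p q - q + h j).Prime)

/-- For every `r ≥ 1` there are `c, C > 0` and `n₀` such that for all `n ≥ n₀`, all `X ≥ n ^ 96` and all sets `Q` of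
integers `q`, `2 ≤ q ≤ n` (for instance of primes):
(1) if `#Q ≥ (log X) ^ r`, then for at least `c X ^ r / (log log n) ^ r` of the vectors `h ∈ [1, X] ^ r` all the numbers
`p_q - q + h_j` are prime for at least `c #Q / (log X) ^ r` of the `q ∈ Q`;
(2) for at most `C #Q X ^ r / (log X) ^ r` of the vectors `h ∈ [1, X] ^ r` these numbers are all prime for some `q ∈ Q`. -/
theorem result (r : ℕ) (hr : 1 ≤ r) : ∃ c C : ℝ, 0 < c ∧ 0 < C ∧ ∃ n₀ : ℕ, ∀ n X : ℕ, n₀ ≤ n → n ^ 96 ≤ X →
    ∀ Q : Finset ℕ, (∀ q ∈ Q, 2 ≤ q ∧ q ≤ n) →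
      (Real.log X ^ r ≤ Q.card → c * X ^ r / Real.log (Real.log n) ^ r ≤
        (((Box r X).filter fun h => c * Q.card / Real.log X ^ r ≤ ((Good Q h).card : ℝ)).card : ℝ)) ∧
      (((Box r X).filter fun h => (Good Q h).Nonempty).card : ℝ) ≤ C * Q.card * X ^ r / Real.log X ^ r := by
  obtain ⟨c, hc, N0, h0⟩ := Pool.Agent.X28.SP.generalV r hr
  obtain ⟨C, hC, hU⟩ := Pool.Agent.X28.SP.upperV r
  obtain ⟨n2, hn2⟩ := Pool.Agent.X28.SX.nth_le
  obtain ⟨n5, hn5⟩ := Pool.Agent.Y843.HS.log_pow_le 2 1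
  refine ⟨c, C, hc, hC, max (max N0 n2) (max n5 2), fun n X hn hX Q hQ => ?_⟩
  have hlog := hn5 n (by omega)
  rw [one_mul] at hlog
  have hsq : (n : ℝ) * Real.log n ^ 2 ≤ (n : ℝ) ^ 2 := by
    rw [sq (n : ℝ)]
    exact mul_le_mul_of_nonneg_left hlog (Nat.cast_nonneg _)
  have hbd : ∀ q ∈ Q, 1 ≤ p q - q ∧ p q - q ≤ n ^ 2 := by
    intro q hq
    obtain ⟨h1, h2⟩ := hQ q hq
    have h3 := Nat.add_two_le_nth_prime (q - 1)
    have h4 : p q ≤ n ^ 2 := by exact_mod_cast (hn2 n (by omega) q (by omega)).trans hsq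
    unfold p at h4 ⊢
    omega
  have hn1 : 1 ≤ n := by omega
  have h25 : n ^ 2 ≤ n ^ 5 := Nat.pow_le_pow_right hn1 (by norm_num)
  have h2X : n ^ 2 ≤ X := (Nat.pow_le_pow_right hn1 (by norm_num)).trans hX
  have hX2 : 2 ≤ X := le_trans (by omega) ((Nat.le_self_pow (show 96 ≠ 0 by norm_num) n).trans hX)
  have hinj : Set.InjOn (fun q => p q - q) Q := by
    intro a ha b hb hab
    by_contra hne
    rcases lt_or_gt_of_ne hne with h | h
    · have := ShiftedDifferences.diff_lt (hQ a ha).1 h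
      have hab' : ShiftedDifferences.p a - a = ShiftedDifferences.p b - b := hab
      omega
    · have := ShiftedDifferences.diff_lt (hQ b hb).1 h
      have hab' : ShiftedDifferences.p a - a = ShiftedDifferences.p b - b := hab
      omega
  refine ⟨fun hm => ?_, ?_⟩
  · exact h0 n X Q (fun _ q => p q - q) (by omega) (fun _ => hinj)
      (fun _ q hq => ⟨(hbd q hq).1, (hbd q hq).2.trans h25⟩) hX hm
  · exact hU X Q (fun _ q => p q - q) hX2 (fun _ q hq => (hbd q hq).2.trans h2X)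

end Pool.Agent.Results.MP_61a569_nt.ExponentialShiftRanges
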