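import Mathlib
import Pool.Agent.X28.SP.Tot
import Pool.Agent.Results.MP_61a569_nt.ShiftedDifferences
import Pool.Agent.Results.MP_61a569_nt.ExponentialShiftRanges

/-!
# Primes `q = φ(k) + φ(n - k) / 2 + 1` with `p_q - q + t`, `p_q - q + u` prime, for a positive proportion of the `n`

For a positive proportion of the integers `n` there are many primes `q = φ(k) + φ(n - k) / 2 + 1` for which both numbers
`p_q - q + t` and `p_q - q + u` are prime, for almost all pairs of shifts `t, u` up to `n`, and for a large proportion of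
the pairs of shifts up to `exp (√n / (log n) ^ 7)`; the question has `t = -1`, `u = 1`.
-/

set_option autoImplicit false

open Finset Filter

namespace Pool.Agent.Results.MP_61a569_nt.TotientSumsManyShifts

/-- the `k`-th prime, `p 1 = 2` -/
noncomputable def p (k : ℕ) : ℕ := Nat.nth Nat.Prime (k - 1)

/-- `q n k = φ(k) + φ(n - k) / 2 + 1` -/
def q (n k : ℕ) : ℕ := Nat.totient k + Nat.totient (n - k) / 2 + 1

/-- the set of the different primes `q n k`, `1 ≤ k < n - 2` -/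
def PQ (n : ℕ) : Finset ℕ := ((range n).filter (fun k => 1 ≤ k ∧ k + 2 < n ∧ (q n k).Prime)).image (q n)

/-- there are at least `n / (log n) ^ 14` of these primes -/
def Many (n : ℕ) : Prop := (n : ℝ) / Real.log n ^ 14 ≤ ((PQ n).card : ℝ)

/-- the product of `1 - 1/l` over the primes `l ≤ y` -/
noncomputable def V (y : ℕ) : ℝ := ∏ l ∈ (Icc 1 y).filter Nat.Prime, (1 - 1 / (l : ℝ))

open Classical in
/-- the `q ∈ Q` for which no number `p_q - q + t i`, `i < r`, has a prime factor `≤ y` -/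
noncomputable def Free (y : ℕ) (Q : Finset ℕ) {r : ℕ} (t : Fin r → ℕ) : Finset ℕ :=
  Q.filter (fun q => ∀ i, ∀ l : ℕ, l.Prime → l ≤ y → ¬ l ∣ p q - q + t i)

/-- the `q ∈ Q` for which all the numbers `p_q - q + t i`, `i < r`, are prime -/
noncomputable def Good (Q : Finset ℕ) {r : ℕ} (t : Fin r → ℕ) : Finset ℕ :=
  Q.filter (fun q => ∀ i, (p q - q + t i).Prime)

/-- the vectors `t` with `M (g₀ i + 1) ≤ t i < M (g₀ i + G i + 1)` for all `i < r` -/
def Shifts (M : ℕ) {r : ℕ} (g₀ G : Fin r → ℕ) : Finset (Fin r → ℕ) :=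
  Fintype.piFinset (fun i => Ico (M * (g₀ i + 1)) (M * (g₀ i + 1 + G i)))

/-- the vectors `(h_1, ..., h_r)` with entries in `[1, X]` -/
def Box (r X : ℕ) : Finset (Fin r → ℕ) := Fintype.piFinset fun _ => Icc 1 X

theorem q_le {n k : ℕ} (hk : 1 ≤ k) (hn : k + 2 < n) : 2 ≤ q n k ∧ q n k ≤ n := by
  have h1 : 0 < Nat.totient k := Nat.totient_pos.2 hk
  have h2 : Nat.totient k ≤ k := Nat.totient_le k
  have h3 : Nat.totient (n - k) ≤ n - k := Nat.totient_le (n - k)
  unfold q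
  omega

theorem PQ_mem {n : ℕ} : ∀ z ∈ PQ n, 2 ≤ z ∧ z ≤ n := by
  intro z hz
  unfold PQ at hz
  obtain ⟨k, hk, rfl⟩ := mem_image.1 hz
  obtain ⟨-, h1, h2, -⟩ := mem_filter.1 hk
  exact q_le h1 h2

/-- (1) A positive proportion of the `n ≤ x` have `n ≥ 32` and at least `n / (log n) ^ 14` different primes
`q = φ(k) + φ(n - k) / 2 + 1`, `1 ≤ k < n - 2`; let `PQ n` be the set of these primes.
(2) For all `r`, `A`, `C` and `0 < ε ≤ 1` there is `K₀` such that for every `K₁` and every large `n` as in (1), every `y`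
between `K₀ log log n` and `K₁ log log n`, with `M` the product of the primes `≤ y`, and all windows with
`M (g₀ i + G i) ≤ n`, `G i ≥ n / (M log ^ C n)`, `i < r`: among the `∏ (M G i)` vectors of shifts `t`,
`M (g₀ i + 1) ≤ t i < M (g₀ i + G i + 1)`, for which at least `n / log ^ A n` of the primes `q ∈ PQ n` are such that none
of the numbers `p_q - q + t i` has a prime factor `≤ y`, all the numbers `p_q - q + t i` are prime for at least `1 - ε`
times the expected number of `q ∈ PQ n`, with at most `ε ∏ (M G i)` exceptions; and in the mean over all `t` the number of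
these `q` without small prime factors is exactly `#(PQ n) ∏ (φ(M) G i) / ∏ (M G i)`.
(3) For every `r ≥ 1` there are `c' > 0` and `n₀` such that for all `n ≥ n₀` as in (1) and all `X ≥ n ^ 96` with
`(log X) ^ r ≤ n / (log n) ^ 14`, for at least `c' X ^ r / (log log n) ^ r` of the vectors `h ∈ [1, X] ^ r` all the numbers
`p_q - q + h_j` are prime for at least `c' #(PQ n) / (log X) ^ r` of the primes `q ∈ PQ n`. -/
theorem result :
    (∃ c : ℝ, 0 < c ∧ ∀ᶠ x : ℕ in atTop, c * x ≤ (Set.ncard {n : ℕ | 32 ≤ n ∧ n ≤ x ∧ Many n} : ℝ)) ∧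
    (∀ (r A C : ℕ) (ε : ℝ), 0 < ε → ε ≤ 1 → ∃ K₀ : ℕ, ∀ K₁ : ℕ, ∃ n₀ : ℕ, ∀ n : ℕ, n₀ ≤ n → Many n →
      ∀ y : ℕ, K₀ * Real.log (Real.log n) ≤ y → y ≤ K₁ * Real.log (Real.log n) →
      ∀ g₀ G : Fin r → ℕ, (∀ i, primorial y * (g₀ i + G i) ≤ n) →
      (∀ i, (n : ℝ) ≤ primorial y * G i * Real.log n ^ C) →
      (((Shifts (primorial y) g₀ G).filter (fun t => (n : ℝ) ≤ (Free y (PQ n) t).card * Real.log n ^ A ∧
        ((Good (PQ n) t).card : ℝ) < (1 - ε) * ((Free y (PQ n) t).card / (V y * Real.log n) ^ r))).card : ℝ) ≤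
          ε * ∏ i, ((primorial y : ℝ) * G i) ∧
      ∑ t ∈ Shifts (primorial y) g₀ G, (Free y (PQ n) t).card =
        (PQ n).card * ∏ i, (G i * Nat.totient (primorial y))) ∧
    (∀ r : ℕ, 1 ≤ r → ∃ c' : ℝ, 0 < c' ∧ ∃ n₀ : ℕ, ∀ n X : ℕ, n₀ ≤ n → Many n → n ^ 96 ≤ X →
      Real.log X ^ r ≤ (n : ℝ) / Real.log n ^ 14 →
      c' * X ^ r / Real.log (Real.log n) ^ r ≤
        (((Box r X).filter fun h => c' * (PQ n).card / Real.log X ^ r ≤ ((Good (PQ n) h).card : ℝ)).card : ℝ)) := by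
  refine ⟨Pool.Agent.X28.SP.Tot.good_q, ?_, ?_⟩
  · intro r A C ε hε hε1
    obtain ⟨K₀, hK₀⟩ := ShiftedDifferences.result r A C ε hε hε1
    refine ⟨K₀, fun K₁ => ?_⟩
    obtain ⟨n₀, hn₀⟩ := hK₀ K₁
    refine ⟨n₀, fun n hn _ y hy1 hy2 g₀ G hg1 hg2 => ?_⟩
    exact hn₀ n hn y hy1 hy2 g₀ G hg1 hg2 (PQ n) PQ_mem
  · intro r hr
    obtain ⟨c, C, hc, hC, n₀, h⟩ := ExponentialShiftRanges.result r hr
    refine ⟨c, hc, n₀, fun n X hn hM hX hl => ?_⟩
    exact (h n X hn hX (PQ n) PQ_mem).1 (hl.trans hM)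

end Pool.Agent.Results.MP_61a569_nt.TotientSumsManyShifts
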